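import Pool.Agent.Y795.PiH.Stm

/-!
# Project PH of helper795: the archimedean estimate
-/

set_option autoImplicit false

open Polynomial Filter

namespace Pool.Agent.Y454.PiH

open Pool.Agent.Y795.PiH

/-! ### paths -/

theorem isCompact_seg (a b : ℂ) : IsCompact (segment ℝ a b) := by
  rw [segment_eq_image]
  exact isCompact_Icc.image (by fun_prop)

theorem isCompact_path : ∀ l : List ℂ, IsCompact {x | OnPath l x}
  | [] => by
      have : {x | OnPath ([] : List ℂ) x} = ∅ := by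
        ext x
        exact ⟨fun h => h, fun h => absurd h (Set.notMem_empty x)⟩
      rw [this]
      exact isCompact_empty
  | [a] => by
      have : {x | OnPath [a] x} = ∅ := by
        ext x
        exact ⟨fun h => h, fun h => absurd h (Set.notMem_empty x)⟩
      rw [this]
      exact isCompact_empty
  | (a :: b :: l) => by
      have : {x | OnPath (a :: b :: l) x} = segment ℝ a b ∪ {x | OnPath (b :: l) x} := by
        ext x
        exact Iff.rfl
      rw [this]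
      exact (isCompact_seg a b).union (isCompact_path (b :: l))

theorem plen_nonneg : ∀ l : List ℂ, 0 ≤ plen l
  | [] => le_rfl
  | [_] => le_rfl
  | (a :: b :: l) => add_nonneg (norm_nonneg _) (plen_nonneg (b :: l))

theorem Adm_ne {x : ℂ} (h : Adm x) : x ≠ 0 := by
  rintro rfl
  have := h.2.1
  rw [norm_zero] at this
  linarith

theorem wx_sq {x : ℂ} (h : Adm x) : wx x ^ 2 - 8 = (x - 2 / x) ^ 2 := by
  have := Adm_ne h
  unfold wx
  field_simp
  ring

theorem wx_ne {x : ℂ} (h : Adm x) : wx x ^ 2 - 8 ≠ 0 := by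
  rw [wx_sq h]
  refine pow_ne_zero 2 ?_
  intro h0
  have h1 := Adm_ne h
  apply h.2.2
  have h2 : x - 2 / x = (x ^ 2 - 2) / x := by
    field_simp
  rw [h2, div_eq_zero_iff] at h0
  rcases h0 with h0 | h0
  · exact sub_eq_zero.1 h0
  · exact absurd h0 h1

theorem W1_nonneg (w : ℂ) : 0 ≤ W1 w := by
  unfold W1
  positivity

theorem path_bound (l : List ℂ) (h : ∀ x, OnPath l x → Adm x) :
    ∃ K : ℝ, 1 ≤ K ∧ ∀ x, OnPath l x → W1 (wx x) ≤ K ∧ ‖wx x‖ ≤ K := by
  have c1 : ContinuousOn (fun x => wx x) {x | OnPath l x} := by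
    unfold wx
    exact continuousOn_id.add (continuousOn_const.div continuousOn_id
      fun x hx => Adm_ne (h x hx))
  have c2 : ContinuousOn (fun x => W1 (wx x)) {x | OnPath l x} := by
    unfold W1
    refine ContinuousOn.div ?_ ?_ ?_
    · exact ((c1.sub continuousOn_const).norm.pow 2).mul
        ((c1.sub continuousOn_const).norm.pow 4)
    · exact ((c1.pow 2).sub continuousOn_const).norm.pow 2
    · intro x hx
      exact pow_ne_zero 2 (norm_ne_zero_iff.2 (wx_ne (h x hx)))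
  obtain ⟨K1, hK1⟩ := (isCompact_path l).exists_bound_of_continuousOn c1
  obtain ⟨K2, hK2⟩ := (isCompact_path l).exists_bound_of_continuousOn c2
  refine ⟨max 1 (max K1 K2), le_max_left _ _, fun x hx => ⟨?_, ?_⟩⟩
  · exact ((le_abs_self _).trans (hK2 x hx)).trans ((le_max_right _ _).trans (le_max_right _ _))
  · exact (hK1 x hx).trans ((le_max_left _ _).trans (le_max_right _ _))

/-! ### the basis -/

/-- the data of an element of the basis -/
structure Dec (c : Cert) (M i : ℕ) (Q : ℚ[X]) (H : ℕ) : Prop where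
  ex : ∃ j < c.J, ∃ u v e : ℕ, u + v = M ∧ e < c.D ∧ i = u * c.d j + v * c.d (j + 1) + e ∧
    Q = c.B j ^ u * c.B (j + 1) ^ v * X ^ e ∧ H = u * c.T j + v * c.T (j + 1)
  val : ∀ j < c.J, M * c.d j ≤ i → i < M * c.d (j + 1) →
    H = (M - (i - M * c.d j) / (c.d (j + 1) - c.d j)) * c.T j +
      (i - M * c.d j) / (c.d (j + 1) - c.d j) * c.T (j + 1)

theorem d_mono {c : Cert} (h : c.Valid) : ∀ {i j : ℕ}, i ≤ j → j ≤ c.J → c.d i ≤ c.d j := by
  intro i j hij
  induction j, hij using Nat.le_induction with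
  | base => intro _; exact le_rfl
  | succ j hij ih =>
    intro hj
    exact (ih (by omega)).trans (h.d_lt j (by omega)).le

theorem D_pos {c : Cert} (h : c.Valid) : 0 < c.D := by
  have h1 := h.d_lt (c.J - 1) (by have := h.J_pos; omega)
  have h2 : c.J - 1 + 1 = c.J := by have := h.J_pos; omega
  rw [h2, h.d_last] at h1
  omega

theorem exists_j {c : Cert} (h : c.Valid) (M i : ℕ) : ∀ n ≤ c.J, i < M * c.d n →
    ∃ j < n, M * c.d j ≤ i ∧ i < M * c.d (j + 1) := by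
  intro n
  induction n with
  | zero =>
    intro _ hi
    rw [h.d_zero, mul_zero] at hi
    omega
  | succ n ih =>
    intro hn hi
    by_cases h1 : i < M * c.d n
    · obtain ⟨j, hj, h2⟩ := ih (by omega) h1
      exact ⟨j, by omega, h2⟩
    · exact ⟨n, by omega, by omega, hi⟩

theorem exists_dec {c : Cert} (h : c.Valid) {M i : ℕ} (hi : i < (M + 1) * c.D) :
    ∃ Q H, Dec c M i Q H := by
  by_cases h1 : i < M * c.D
  · obtain ⟨j, hj, h2, h3⟩ := exists_j h M i c.J le_rfl (by rw [h.d_last]; exact h1)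
    obtain ⟨δ, hδ⟩ : ∃ δ, δ = c.d (j + 1) - c.d j := ⟨_, rfl⟩
    have hlt := h.d_lt j hj
    have hδ0 : 0 < δ := by omega
    have hd1 : c.d (j + 1) = c.d j + δ := by omega
    obtain ⟨t, ht⟩ : ∃ t, t = i - M * c.d j := ⟨_, rfl⟩
    have hit : i = M * c.d j + t := by omega
    have htM : t < M * δ := by
      rw [hd1, mul_add] at h3
      omega
    have hv : t / δ < M := Nat.div_lt_of_lt_mul (by rw [mul_comm]; exact htM)
    have htd := Nat.div_add_mod t δ
    have hmod := Nat.mod_lt t hδ0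
    have hδD : δ ≤ c.D := by
      have := d_mono h (i := j + 1) (j := c.J) (by omega) le_rfl
      rw [h.d_last] at this
      omega
    refine ⟨_, _, ⟨j, hj, M - t / δ, t / δ, t % δ, by omega, by omega, ?_, rfl, rfl⟩, ?_⟩
    · rw [hd1, hit]
      obtain ⟨v, hvdef⟩ : ∃ v, v = t / δ := ⟨_, rfl⟩
      obtain ⟨u, hu⟩ : ∃ u, M = u + v := ⟨M - v, by omega⟩
      rw [← hvdef] at htd ⊢
      have : M - v = u := by omega
      rw [this, hu]
      nlinarith
    · intro j' hj' h2' h3'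
      have hjj : j' = j := by
        rcases lt_trichotomy j' j with h4 | h4 | h4
        · exfalso
          have := d_mono h (i := j' + 1) (j := j) (by omega) (by omega)
          have := Nat.mul_le_mul_left M this
          omega
        · exact h4
        · exfalso
          have := d_mono h (i := j + 1) (j := j') (by omega) (by omega)
          have := Nat.mul_le_mul_left M this
          omega
      subst hjj
      rw [← hδ, ← ht]
  · have hJ := h.J_pos
    have e1 : c.J - 1 + 1 = c.J := by omega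
    refine ⟨_, _, ⟨c.J - 1, by omega, 0, M, i - M * c.D, by omega, ?_, ?_, rfl, rfl⟩, ?_⟩
    · rw [add_mul, one_mul] at hi
      omega
    · rw [e1, h.d_last, zero_mul, zero_add]
      omega
    · intro j hj h2 h3
      exfalso
      have := d_mono h (i := j + 1) (j := c.J) (by omega) le_rfl
      rw [h.d_last] at this
      have := Nat.mul_le_mul_left M this
      omega

theorem Dec.monic {c : Cert} (h : c.Valid) {M i H : ℕ} {Q : ℚ[X]} (hd : Dec c M i Q H) :
    Q.Monic ∧ Q.natDegree = i := by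
  obtain ⟨j, hj, u, v, e, -, -, hi, hQ, -⟩ := hd.ex
  have h1 := h.monic j (by omega)
  have h2 := h.monic (j + 1) (by omega)
  have m1 := h1.1.pow u
  have m2 := h2.1.pow v
  have m3 : (X ^ e : ℚ[X]).Monic := monic_X_pow e
  rw [hQ]
  refine ⟨(m1.mul m2).mul m3, ?_⟩
  rw [(m1.mul m2).natDegree_mul m3, m1.natDegree_mul m2, h1.1.natDegree_pow, h2.1.natDegree_pow,
    natDegree_X_pow, h1.2, h2.2, hi]

/-- the bound on the path -/
theorem Dec.bound {c : Cert} (h : c.Valid) {M r p i H S' : ℕ} {Q : ℚ[X]} (hd : Dec c M i Q H)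
    (hp : p = M * c.D + r) (hr : r < c.D) {K : ℝ} (hK : 1 ≤ K) {x : ℂ} (hK1 : W1 (wx x) ≤ K)
    (hK2 : ‖wx x‖ ≤ K)
    (hb : ∀ j ≤ c.J, ‖aeval (wx x) (c.B j)‖ ^ 2 * W1 (wx x) ^ c.D * 2 ^ c.T j ≤ 2 ^ S') :
    ‖aeval (wx x) Q‖ ^ 2 * W1 (wx x) ^ p * 2 ^ H ≤ 2 ^ (S' * M) * K ^ (3 * c.D) := by
  obtain ⟨j, hj, u, v, e, huv, he, hi, hQ, hH⟩ := hd.ex
  have b1 := hb j (by omega)
  have b2 := hb (j + 1) (by omega)
  have w0 := W1_nonneg (wx x)
  obtain ⟨ω, hω⟩ : ∃ ω, ω = W1 (wx x) := ⟨_, rfl⟩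
  obtain ⟨w, hw⟩ : ∃ w, w = wx x := ⟨_, rfl⟩
  rw [← hω] at b1 b2 w0 hK1 ⊢
  rw [← hw] at b1 b2 hK2 ⊢
  have e1 : ‖aeval w Q‖ ^ 2 * ω ^ p * 2 ^ H =
      (‖aeval w (c.B j)‖ ^ 2 * ω ^ c.D * 2 ^ c.T j) ^ u *
        (‖aeval w (c.B (j + 1))‖ ^ 2 * ω ^ c.D * 2 ^ c.T (j + 1)) ^ v *
        (ω ^ r * ‖w‖ ^ (2 * e)) := by
    rw [hQ, map_mul, map_mul, map_pow, map_pow, map_pow, aeval_X, norm_mul, norm_mul, norm_pow,
      norm_pow, norm_pow, hH, hp, ← huv]
    ring
  rw [e1]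
  have i1 : (‖aeval w (c.B j)‖ ^ 2 * ω ^ c.D * 2 ^ c.T j) ^ u ≤ (2 ^ S') ^ u :=
    pow_le_pow_left₀ (by positivity) b1 u
  have i2 : (‖aeval w (c.B (j + 1))‖ ^ 2 * ω ^ c.D * 2 ^ c.T (j + 1)) ^ v ≤ (2 ^ S') ^ v :=
    pow_le_pow_left₀ (by positivity) b2 v
  have i3 : ω ^ r ≤ K ^ c.D :=
    (pow_le_pow_left₀ w0 hK1 r).trans (pow_le_pow_right₀ hK hr.le)
  have i4 : ‖w‖ ^ (2 * e) ≤ K ^ (2 * c.D) :=
    (pow_le_pow_left₀ (norm_nonneg _) hK2 _).trans (pow_le_pow_right₀ hK (by omega))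
  have i5 : ω ^ r * ‖w‖ ^ (2 * e) ≤ K ^ (3 * c.D) := by
    calc ω ^ r * ‖w‖ ^ (2 * e) ≤ K ^ c.D * K ^ (2 * c.D) :=
          mul_le_mul i3 i4 (by positivity) (by positivity)
      _ = K ^ (3 * c.D) := by rw [← pow_add]; congr 1; ring
  have i6 : (2 : ℝ) ^ (S' * M) = (2 ^ S') ^ u * (2 ^ S') ^ v := by
    rw [← pow_add, huv, ← pow_mul]
  rw [i6]
  exact mul_le_mul (mul_le_mul i1 i2 (by positivity) (by positivity)) i5 (by positivity)
    (by positivity)

/-- the square root of `2 ^ (-H)` -/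
noncomputable def AA (H : ℕ) : ℝ := Real.sqrt ((1 / 2) ^ H)

theorem AA_pos (H : ℕ) : 0 < AA H := Real.sqrt_pos.2 (by positivity)

theorem AA_sq (H : ℕ) : AA H ^ 2 = (1 / 2) ^ H := Real.sq_sqrt (by positivity)

theorem two_bound {q q' ω C : ℝ} (hq : 0 ≤ q) (hq' : 0 ≤ q') (hω : 0 ≤ ω) (hC : 0 ≤ C) {H H' : ℕ}
    (h : q ^ 2 * ω * 2 ^ H ≤ C) (h' : q' ^ 2 * ω * 2 ^ H' ≤ C) :
    q * q' * ω ≤ C * (AA H * AA H') := by
  have e : ∀ (a : ℝ) (H : ℕ), a ^ 2 * ω * 2 ^ H ≤ C → a ^ 2 * ω ≤ C * AA H ^ 2 := by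
    intro a H h
    rw [AA_sq]
    have h1 : a ^ 2 * ω = (a ^ 2 * ω * 2 ^ H) * (1 / 2) ^ H := by
      rw [mul_assoc (a ^ 2 * ω), ← mul_pow]
      norm_num
    rw [h1]
    exact mul_le_mul_of_nonneg_right h (by positivity)
  have h1 := e q H h
  have h2 := e q' H' h'
  have h3 := (AA_pos H).le
  have h4 := (AA_pos H').le
  refine (pow_le_pow_iff_left₀ (by positivity) (by positivity) two_ne_zero).1 ?_
  calc (q * q' * ω) ^ 2 = (q ^ 2 * ω) * (q' ^ 2 * ω) := by ring
    _ ≤ (C * AA H ^ 2) * (C * AA H' ^ 2) := mul_le_mul h1 h2 (by positivity) (by positivity)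
    _ = (C * (AA H * AA H')) ^ 2 := by ring

/-! ### the entries -/

theorem two_pow_exp {c : Cert} (h : c.Valid) {M p : ℕ} (hp : M * c.D ≤ p) :
    (2 : ℝ) ^ (c.S * M) * Real.exp (-(c.s * p)) ≤ 1 := by
  have hD : (0 : ℝ) < c.D := by exact_mod_cast D_pos h
  have h2 : (0 : ℝ) < Real.log 2 := Real.log_pos (by norm_num)
  have e1 : (2 : ℝ) ^ (c.S * M) = Real.exp (((c.S * M : ℕ) : ℝ) * Real.log 2) := by
    rw [Real.exp_nat_mul, Real.exp_log (by norm_num)]
  rw [e1, ← Real.exp_add, Real.exp_le_one_iff]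
  unfold Cert.s
  have h3 : (M : ℝ) * c.D ≤ p := by exact_mod_cast hp
  have h4 : (M : ℝ) ≤ p / c.D := by rwa [le_div_iff₀ hD]
  have h5 : (c.S : ℝ) * Real.log 2 * M ≤ c.S * Real.log 2 * (p / c.D) :=
    mul_le_mul_of_nonneg_left h4 (by positivity)
  push_cast
  have h6 : (c.S : ℝ) * Real.log 2 / c.D * p = c.S * Real.log 2 * (p / c.D) := by ring
  rw [h6]
  nlinarith

theorem entry_bound (hint : S_int) {c : Cert} (h : c.Valid) : ∃ C : ℝ, 1 ≤ C ∧
    ∀ p M r : ℕ, 1 ≤ p → p = M * c.D + r → r < c.D → ∀ z : ℚ,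
      |(z : ℝ) - Real.pi| ≤ Real.exp (-(c.s * p)) →
      ∀ (i k H H' : ℕ) (Q Q' : ℚ[X]), Dec c M i Q H → Dec c M k Q' H' →
        |((Nz p z (Q * Q') : ℚ) : ℝ)| ≤ C * (AA H * AA H') := by
  obtain ⟨K1, hK1, hb1⟩ := path_bound c.l1 fun x hx => (h.l1_bd x hx).1
  obtain ⟨K2, hK2, hb2⟩ := path_bound c.l2 fun x hx => (h.l2_bd x hx).1
  have hl1 := plen_nonneg c.l1
  have hl2 := plen_nonneg c.l2
  refine ⟨1 + 4 * plen c.l1 * K1 ^ (3 * c.D) + plen c.l2 * K2 ^ (3 * c.D), ?_, ?_⟩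
  · have : 0 ≤ 4 * plen c.l1 * K1 ^ (3 * c.D) + plen c.l2 * K2 ^ (3 * c.D) := by positivity
    linarith
  intro p M r hp hpM hr z hz i k H H' Q Q' hd hd'
  obtain ⟨x0, hx0, hx0l⟩ := h.l1_head
  obtain ⟨y0, hy0, hy0l⟩ := h.l2_head
  obtain ⟨y1, hy1, hy1l⟩ := h.l2_last
  have hA := AA_pos H
  have hA' := AA_pos H'
  -- the first path
  have k1 := (hint p hp (Q * Q') c.l1 x0 (K1 ^ (3 * c.D) * (AA H * AA H')) hx0 hx0l h.l1_len
    (by positivity) (by
      intro x hx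
      refine ⟨(h.l1_bd x hx).1, ?_⟩
      have b := h.l1_bd x hx
      have c1 := hd.bound h hpM hr hK1 (hb1 x hx).1 (hb1 x hx).2 (S' := 0) (fun j hj => by
        rw [pow_zero]; exact b.2 j hj)
      have c2 := hd'.bound h hpM hr hK1 (hb1 x hx).1 (hb1 x hx).2 (S' := 0) (fun j hj => by
        rw [pow_zero]; exact b.2 j hj)
      rw [zero_mul, pow_zero, one_mul] at c1 c2
      rw [map_mul, norm_mul]
      exact two_bound (norm_nonneg _) (norm_nonneg _) (pow_nonneg (W1_nonneg _) _)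
        (by positivity) c1 c2)).1 h.l1_last
  -- the second path
  have k2 := (hint p hp (Q * Q') c.l2 y0 (2 ^ (c.S * M) * K2 ^ (3 * c.D) * (AA H * AA H')) hy0
    hy0l h.l2_len (by positivity) (by
      intro x hx
      refine ⟨(h.l2_bd x hx).1, ?_⟩
      have b := h.l2_bd x hx
      have c1 := hd.bound h hpM hr hK2 (hb2 x hx).1 (hb2 x hx).2 (S' := c.S) b.2
      have c2 := hd'.bound h hpM hr hK2 (hb2 x hx).1 (hb2 x hx).2 (S' := c.S) b.2
      rw [map_mul, norm_mul]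
      exact two_bound (norm_nonneg _) (norm_nonneg _) (pow_nonneg (W1_nonneg _) _)
        (by positivity) c1 c2)).2 y1 hy1 hy1l
  have e1 : ((Nz p z (Q * Q') : ℚ) : ℝ) = ((kf p (Q * Q') : ℝ) * Real.pi + (bf p (Q * Q') : ℝ)) +
      (kf p (Q * Q') : ℝ) * ((z : ℝ) - Real.pi) := by
    unfold Nz
    push_cast
    ring
  have h3 := two_pow_exp h (M := M) (p := p) (by omega)
  have h5 : |(kf p (Q * Q') : ℝ) * ((z : ℝ) - Real.pi)| ≤
      plen c.l2 * K2 ^ (3 * c.D) * (AA H * AA H') := by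
    rw [abs_mul]
    calc |(kf p (Q * Q') : ℝ)| * |(z : ℝ) - Real.pi| ≤
        (plen c.l2 * (2 ^ (c.S * M) * K2 ^ (3 * c.D) * (AA H * AA H'))) *
          Real.exp (-(c.s * p)) := mul_le_mul k2 hz (abs_nonneg _) (by positivity)
      _ = (plen c.l2 * K2 ^ (3 * c.D) * (AA H * AA H')) *
          (2 ^ (c.S * M) * Real.exp (-(c.s * p))) := by ring
      _ ≤ (plen c.l2 * K2 ^ (3 * c.D) * (AA H * AA H')) * 1 :=
          mul_le_mul_of_nonneg_left h3 (by positivity)
      _ = _ := mul_one _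
  rw [e1]
  refine (abs_add_le _ _).trans ?_
  have h6 : 0 ≤ AA H * AA H' := by positivity
  calc _ ≤ 4 * plen c.l1 * (K1 ^ (3 * c.D) * (AA H * AA H')) +
        plen c.l2 * K2 ^ (3 * c.D) * (AA H * AA H') := add_le_add k1 h5
    _ ≤ _ := by nlinarith

theorem det_bound {n : ℕ} (A : Matrix (Fin n) (Fin n) ℝ) (C : ℝ) (a : Fin n → ℝ) (hC : 0 ≤ C)
    (ha : ∀ i, 0 ≤ a i) (h : ∀ i j, |A i j| ≤ C * (a i * a j)) :
    |A.det| ≤ n.factorial * (C ^ n * ∏ i, a i ^ 2) := by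
  rw [Matrix.det_apply']
  refine (Finset.abs_sum_le_sum_abs _ _).trans ?_
  have h1 : ∀ σ : Equiv.Perm (Fin n), |((Equiv.Perm.sign σ : ℤ) : ℝ) * ∏ i, A (σ i) i| ≤
      C ^ n * ∏ i, a i ^ 2 := by
    intro σ
    have e1 : |((Equiv.Perm.sign σ : ℤ) : ℝ)| = 1 := by
      rcases Int.units_eq_one_or (Equiv.Perm.sign σ) with h | h <;> simp [h]
    rw [abs_mul, e1, one_mul, Finset.abs_prod]
    have e2 : C ^ n * ∏ i, a i ^ 2 = ∏ i, (C * (a (σ i) * a i)) := by
      rw [Finset.prod_mul_distrib, Finset.prod_const, Finset.card_univ, Fintype.card_fin,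
        Finset.prod_mul_distrib, Equiv.prod_comp σ a, Finset.prod_pow]
      ring
    rw [e2]
    exact Finset.prod_le_prod (fun i _ => abs_nonneg _) fun i _ => h _ _
  refine (Finset.sum_le_card_nsmul _ _ _ fun σ _ => h1 σ).trans ?_
  rw [Finset.card_univ, Fintype.card_perm, Fintype.card_fin, nsmul_eq_mul]

/-! ### the sum of the exponents -/

theorem sum_div (g : ℕ → ℝ) (δ : ℕ) (hδ : 0 < δ) (M : ℕ) :
    ∑ t ∈ Finset.range (M * δ), g (t / δ) = δ * ∑ v ∈ Finset.range M, g v := by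
  induction M with
  | zero => simp
  | succ M ih =>
    rw [add_mul, one_mul, Finset.sum_range_add, ih, Finset.sum_range_succ, mul_add]
    congr 1
    have : ∀ t ∈ Finset.range δ, g ((M * δ + t) / δ) = g M := by
      intro t ht
      rw [Finset.mem_range] at ht
      congr 1
      rw [mul_comm, Nat.mul_add_div hδ, Nat.div_eq_of_lt ht, add_zero]
    rw [Finset.sum_congr rfl this, Finset.sum_const, Finset.card_range, nsmul_eq_mul]

theorem sum_lin (M T T' : ℕ) : (M : ℝ) ^ 2 / 2 * (T + T') - M * T' ≤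
    ∑ v ∈ Finset.range M, (((M - v) * T + v * T' : ℕ) : ℝ) := by
  have h1 : ∑ v ∈ Finset.range M, (((M - v) * T + v * T' : ℕ) : ℝ) =
      ∑ v ∈ Finset.range M, (((M : ℝ) - v) * T + v * T') := by
    refine Finset.sum_congr rfl fun v hv => ?_
    rw [Finset.mem_range] at hv
    rw [Nat.cast_add, Nat.cast_mul, Nat.cast_mul, Nat.cast_sub hv.le]
  have h2 : ∀ N : ℕ, ∑ v ∈ Finset.range N, (((M : ℝ) - v) * T + v * T') =
      N * M * T + (N * (N - 1) / 2) * (T' - T) := by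
    intro N
    induction N with
    | zero => simp
    | succ N ih =>
      rw [Finset.sum_range_succ, ih]
      push_cast
      ring
  rw [h1, h2]
  have h3 : (0 : ℝ) ≤ M := Nat.cast_nonneg _
  have h4 : (0 : ℝ) ≤ T := Nat.cast_nonneg _
  have h5 : (0 : ℝ) ≤ T' := Nat.cast_nonneg _
  nlinarith [mul_nonneg h3 h4, mul_nonneg h3 h5]

/-- the leading coefficient -/
noncomputable def E0 (c : Cert) : ℝ :=
  ∑ j ∈ Finset.range c.J, ((c.d (j + 1) : ℝ) - c.d j) * ((c.T j : ℝ) + c.T (j + 1)) / 2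

/-- the second coefficient -/
noncomputable def E1 (c : Cert) : ℝ :=
  ∑ j ∈ Finset.range c.J, ((c.d (j + 1) : ℝ) - c.d j) * c.T (j + 1)

theorem sum_H {c : Cert} (h : c.Valid) (M : ℕ) (H : ℕ → ℕ)
    (hH : ∀ i < M * c.D, ∀ j < c.J, M * c.d j ≤ i → i < M * c.d (j + 1) →
      H i = (M - (i - M * c.d j) / (c.d (j + 1) - c.d j)) * c.T j +
        (i - M * c.d j) / (c.d (j + 1) - c.d j) * c.T (j + 1)) :
    (M : ℝ) ^ 2 * E0 c - M * E1 c ≤ ∑ i ∈ Finset.range (M * c.D), (H i : ℝ) := by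
  have key : ∀ n ≤ c.J, (M : ℝ) ^ 2 * (∑ j ∈ Finset.range n,
      ((c.d (j + 1) : ℝ) - c.d j) * ((c.T j : ℝ) + c.T (j + 1)) / 2) -
        M * (∑ j ∈ Finset.range n, ((c.d (j + 1) : ℝ) - c.d j) * c.T (j + 1)) ≤
      ∑ i ∈ Finset.range (M * c.d n), (H i : ℝ) := by
    intro n
    induction n with
    | zero =>
      intro _
      rw [h.d_zero]
      simp
    | succ n ih =>
      intro hn
      have h1 := ih (by omega)
      obtain ⟨δ, hδ⟩ : ∃ δ, δ = c.d (n + 1) - c.d n := ⟨_, rfl⟩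
      have hlt := h.d_lt n (by omega)
      have hδ0 : 0 < δ := by omega
      have hd1 : c.d (n + 1) = c.d n + δ := by omega
      have hdD : c.d (n + 1) ≤ c.D := by
        have := d_mono h (i := n + 1) (j := c.J) (by omega) le_rfl
        rwa [h.d_last] at this
      have hMD := Nat.mul_le_mul_left M hdD
      have h2 : ∑ i ∈ Finset.range (M * c.d (n + 1)), (H i : ℝ) =
          ∑ i ∈ Finset.range (M * c.d n), (H i : ℝ) +
            ∑ t ∈ Finset.range (M * δ), (H (M * c.d n + t) : ℝ) := by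
        rw [hd1, mul_add, Finset.sum_range_add]
      have h3 : ∑ t ∈ Finset.range (M * δ), (H (M * c.d n + t) : ℝ) =
          ∑ t ∈ Finset.range (M * δ),
            (fun v : ℕ => (((M - v) * c.T n + v * c.T (n + 1) : ℕ) : ℝ)) (t / δ) := by
        refine Finset.sum_congr rfl fun t ht => ?_
        rw [Finset.mem_range] at ht
        have e : M * c.d (n + 1) = M * c.d n + M * δ := by rw [hd1, mul_add]
        rw [hH (M * c.d n + t) (by omega) n (by omega) (by omega) (by omega), ← hδ,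
          Nat.add_sub_cancel_left]
      have h3' := h3.trans (sum_div (fun v : ℕ => (((M - v) * c.T n + v * c.T (n + 1) : ℕ) : ℝ))
        δ hδ0 M)
      rw [h2, h3', Finset.sum_range_succ, Finset.sum_range_succ]
      have h4 := sum_lin M (c.T n) (c.T (n + 1))
      have h5 := mul_le_mul_of_nonneg_left h4 (Nat.cast_nonneg (α := ℝ) δ)
      have h6 : (c.d (n + 1) : ℝ) - c.d n = δ := by
        rw [hd1]
        push_cast
        ring
      rw [h6]
      nlinarith
  have := key c.J le_rfl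
  rw [h.d_last] at this
  exact this

/-! ### the estimate -/

theorem ev_small (ε K : ℝ) (hε : 0 < ε) : ∀ᶠ p : ℕ in atTop,
    ((p : ℝ) + 1) * Real.log ((p : ℝ) + 1) + K * ((p : ℝ) + 1) ≤ ε * (p : ℝ) ^ 2 := by
  have h1 := Real.isLittleO_log_id_atTop.def (show (0 : ℝ) < ε / 8 by positivity)
  have h2 : Tendsto (fun p : ℕ => (p : ℝ) + 1) atTop atTop :=
    tendsto_atTop_add_const_right _ _ tendsto_natCast_atTop_atTop
  have h3 := h2.eventually h1
  have h4 : ∀ᶠ p : ℕ in atTop, 4 * |K| / ε ≤ (p : ℝ) :=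
    tendsto_natCast_atTop_atTop.eventually_ge_atTop _
  filter_upwards [h3, h4, eventually_ge_atTop 1] with p h5 h6 h7
  have hp : (1 : ℝ) ≤ p := by exact_mod_cast h7
  have h8 : Real.log ((p : ℝ) + 1) ≤ ε / 8 * ((p : ℝ) + 1) := by
    have e1 := le_abs_self (Real.log ((p : ℝ) + 1))
    have e2 : ‖Real.log ((p : ℝ) + 1)‖ ≤ ε / 8 * ‖id ((p : ℝ) + 1)‖ := h5
    rw [Real.norm_eq_abs, Real.norm_eq_abs, id, abs_of_pos (by linarith : (0 : ℝ) < p + 1)] at e2
    linarith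
  have h9 : 4 * |K| ≤ ε * p := by
    rw [div_le_iff₀ hε] at h6
    linarith
  have h10 := le_abs_self K
  have h11 : ((p : ℝ) + 1) * Real.log ((p : ℝ) + 1) ≤ ((p : ℝ) + 1) * (ε / 8 * ((p : ℝ) + 1)) :=
    mul_le_mul_of_nonneg_left h8 (by linarith)
  have h12 : K * ((p : ℝ) + 1) ≤ |K| * (2 * p) := by
    calc K * ((p : ℝ) + 1) ≤ |K| * ((p : ℝ) + 1) :=
          mul_le_mul_of_nonneg_right h10 (by linarith)
      _ ≤ |K| * (2 * p) := mul_le_mul_of_nonneg_left (by linarith) (abs_nonneg _)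
  have h13 : |K| * (2 * p) ≤ ε / 2 * p * p := by
    nlinarith
  have h14 : ((p : ℝ) + 1) * (ε / 8 * ((p : ℝ) + 1)) ≤ ε / 2 * (p * p) := by
    have e1 : ((p : ℝ) + 1) * ((p : ℝ) + 1) ≤ 4 * (p * p) := by nlinarith
    nlinarith
  nlinarith

theorem arch (hint : S_int) : S_arch := by
  intro c h ε hε
  obtain ⟨C, hC, hent⟩ := entry_bound hint h
  have hDp := D_pos h
  have hD : (0 : ℝ) < c.D := by exact_mod_cast hDp
  have hl2 : (0 : ℝ) < Real.log 2 := Real.log_pos (by norm_num)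
  have hE0 : 0 ≤ E0 c := by
    refine Finset.sum_nonneg fun j hj => ?_
    rw [Finset.mem_range] at hj
    have : (c.d j : ℝ) ≤ c.d (j + 1) := by exact_mod_cast (h.d_lt j hj).le
    have h1 : 0 ≤ (c.d (j + 1) : ℝ) - c.d j := by linarith
    positivity
  have hE1 : 0 ≤ E1 c := by
    refine Finset.sum_nonneg fun j hj => ?_
    rw [Finset.mem_range] at hj
    have : (c.d j : ℝ) ≤ c.d (j + 1) := by exact_mod_cast (h.d_lt j hj).le
    have h1 : 0 ≤ (c.d (j + 1) : ℝ) - c.d j := by linarith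
    positivity
  have hlC : 0 ≤ Real.log C := Real.log_nonneg hC
  filter_upwards [ev_small ε (Real.log C + Real.log 2 * (2 * E0 c + E1 c) / c.D) hε,
    eventually_ge_atTop c.D, eventually_ge_atTop 1] with p hev hpD hp1
  intro z hz hne
  obtain ⟨M, hM⟩ : ∃ M, M = p / c.D := ⟨_, rfl⟩
  obtain ⟨r, hr⟩ : ∃ r, r = p % c.D := ⟨_, rfl⟩
  have hpM : p = M * c.D + r := by
    rw [hM, hr, mul_comm]
    exact (Nat.div_add_mod p c.D).symm
  have hrD : r < c.D := by rw [hr]; exact Nat.mod_lt _ hDp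
  have hex : ∀ i, i ≤ p → ∃ Q H, Dec c M i Q H := fun i hi => exists_dec h (by
    rw [add_mul, one_mul]
    omega)
  choose! Q H hQH using hex
  have hdet := DET_basis p hp1 z Q fun i hi => (hQH i hi).monic h
  have hdet' : ((DET p z : ℚ) : ℝ) =
      (Matrix.of fun i j : Fin (p + 1) => ((Nz p z (Q i * Q j) : ℚ) : ℝ)).det := by
    rw [hdet]
    have e := RingHom.map_det (algebraMap ℚ ℝ)
      (Matrix.of fun i j : Fin (p + 1) => Nz p z (Q i * Q j))
    exact e
  have hb := det_bound (Matrix.of fun i j : Fin (p + 1) => ((Nz p z (Q i * Q j) : ℚ) : ℝ)) C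
    (fun i : Fin (p + 1) => AA (H i)) (by linarith) (fun i => (AA_pos _).le) (fun i j => by
      rw [Matrix.of_apply]
      exact hent p M r hp1 hpM hrD z hz i j (H i) (H j) (Q i) (Q j) (hQH i (by omega))
        (hQH j (by omega)))
  rw [← hdet'] at hb
  have hprod : ∏ i : Fin (p + 1), AA (H i) ^ 2 =
      (1 / 2 : ℝ) ^ (∑ i ∈ Finset.range (p + 1), H i) := by
    simp only [AA_sq]
    rw [Finset.prod_pow_eq_pow_sum, Finset.sum_range]
  rw [hprod] at hb
  have hpos : 0 < |((DET p z : ℚ) : ℝ)| := by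
    rw [abs_pos]
    exact_mod_cast hne
  have hlog := Real.log_le_log hpos hb
  have hCpos : 0 < C := by linarith
  have hf : (0 : ℝ) < ((p + 1).factorial : ℝ) := by exact_mod_cast Nat.factorial_pos _
  rw [Real.log_mul hf.ne' (by positivity), Real.log_mul (by positivity) (by positivity),
    Real.log_pow, Real.log_pow] at hlog
  have hhalf : Real.log (1 / 2) = -Real.log 2 := by
    rw [one_div, Real.log_inv]
  rw [hhalf] at hlog
  have hfac : Real.log ((p + 1).factorial : ℝ) ≤ ((p : ℝ) + 1) * Real.log ((p : ℝ) + 1) := by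
    have e1 : ((p + 1).factorial : ℝ) ≤ ((p + 1 : ℕ) : ℝ) ^ (p + 1) := by
      exact_mod_cast Nat.factorial_le_pow (p + 1)
    have e2 := Real.log_le_log hf e1
    rw [Real.log_pow] at e2
    push_cast at e2
    exact e2
  -- the sum of the exponents
  have hsum := sum_H h M H fun i hi j hj h1 h2 => (hQH i (by omega)).val j hj h1 h2
  have hsum2 : ∑ i ∈ Finset.range (M * c.D), (H i : ℝ) ≤
      ((∑ i ∈ Finset.range (p + 1), H i : ℕ) : ℝ) := by
    rw [Nat.cast_sum]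
    refine Finset.sum_le_sum_of_subset_of_nonneg ?_ fun i _ _ => Nat.cast_nonneg _
    intro i hi
    rw [Finset.mem_range] at hi ⊢
    omega
  have hM1 : (p : ℝ) / c.D - 1 ≤ M := by
    have e1 : (p : ℝ) < (M + 1) * c.D := by
      have : p < (M + 1) * c.D := by rw [add_mul, one_mul]; omega
      exact_mod_cast this
    have e2 : (p : ℝ) / c.D < M + 1 := by rwa [div_lt_iff₀ hD]
    linarith
  have hM2 : (M : ℝ) ≤ p / c.D := by
    rw [le_div_iff₀ hD]
    have : M * c.D ≤ p := by omega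
    exact_mod_cast this
  have hM3 : (0 : ℝ) ≤ (p : ℝ) / c.D - 1 := by
    rw [sub_nonneg, le_div_iff₀ hD, one_mul]
    exact_mod_cast hpD
  obtain ⟨y, hy⟩ : ∃ y, y = (p : ℝ) / c.D := ⟨_, rfl⟩
  rw [← hy] at hM1 hM2 hM3
  have hM4 : y ^ 2 - 2 * y ≤ (M : ℝ) ^ 2 := by nlinarith
  have hS : y ^ 2 * E0 c - y * (2 * E0 c + E1 c) ≤
      ((∑ i ∈ Finset.range (p + 1), H i : ℕ) : ℝ) := by
    have e1 := mul_le_mul_of_nonneg_right hM4 hE0
    have e2 := mul_le_mul_of_nonneg_right hM2 hE1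
    nlinarith
  have hE : c.E = E0 c * Real.log 2 / (c.D : ℝ) ^ 2 := rfl
  have hS2 := mul_le_mul_of_nonneg_right hS hl2.le
  have e3 : (y ^ 2 * E0 c) * Real.log 2 = c.E * (p : ℝ) ^ 2 := by
    rw [hE, hy]
    field_simp
  have hy0 : 0 ≤ y := by linarith
  have e4 : y * (2 * E0 c + E1 c) * Real.log 2 ≤
      (Real.log 2 * (2 * E0 c + E1 c) / c.D) * ((p : ℝ) + 1) := by
    have : y * (2 * E0 c + E1 c) * Real.log 2 =
        (Real.log 2 * (2 * E0 c + E1 c) / c.D) * (p : ℝ) := by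
      rw [hy]
      ring
    rw [this]
    exact mul_le_mul_of_nonneg_left (by linarith) (by positivity)
  push_cast at hlog hS2
  nlinarith

end Pool.Agent.Y454.PiH
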